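import Pool.Agent.Helper38.XF.Spec

/-!
# XF, part MOVE: points which are not defined over `k` can be moved.
-/

set_option autoImplicit false

namespace Pool.Agent.Helper39.XF.MOVE

open Pool.Agent.Helper38.XF Polynomial

theorem aeval_incl {L : Type} [Field L] {k k' : Subfield L} (h : k ≤ k') {κ : Type} (w : κ → L)
    (F : MvPolynomial κ k) :
    MvPolynomial.aeval w (MvPolynomial.map (Subfield.inclusion h) F) = MvPolynomial.aeval w F := by
  rw [MvPolynomial.aeval_def, MvPolynomial.aeval_def, MvPolynomial.eval₂_map]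
  rfl

theorem main (h1 : St_SEP) (h2 : St_ONE) : St_MOVE := by
  intro p _ L _ _ _ O t k hO hP hl hac κ _ w b hb e he
  obtain ⟨k', s, hkk, hac', hwb, hs, hsep⟩ := h1 p L t k hP hl hac κ w b hb
  obtain ⟨w', hn, hne, hF⟩ := h2 L O hO k' hac' s hs κ w b hwb hsep e he
  refine ⟨w', hn, hne, fun F hw => ?_⟩
  rw [← aeval_incl hkk w F] at hw
  rw [← aeval_incl hkk w' F]
  exact hF _ hw

end Pool.Agent.Helper39.XF.MOVE
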